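import Pool.Agent.H295R3.NA.Stmts

set_option autoImplicit false

open Finset

namespace Pool.Agent.H331R3.NA

open Pool.Agent.H295R3.NA

/-- harmonic sum of the numbers without divisor in `P` -/
noncomputable def Hs (P : Finset ℕ) (Y : ℕ) : ℝ :=
  ∑ m ∈ (Icc 1 Y).filter (fun m => ∀ p ∈ P, ¬ p ∣ m), (1 : ℝ) / m

lemma step (Y : ℕ) (P : Finset ℕ) (q : ℕ) (hq : q.Prime) :
    (1 - 1 / (q : ℝ)) * Hs P Y ≤ Hs (insert q P) Y := by
  have hq0 : (0 : ℝ) < q := by exact_mod_cast hq.pos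
  set A := (Icc 1 Y).filter (fun m => ∀ p ∈ P, ¬ p ∣ m) with hA
  have h1 : Hs P Y = ∑ m ∈ A.filter (fun m => ¬ q ∣ m), (1 : ℝ) / m +
      ∑ m ∈ A.filter (fun m => ¬ ¬ q ∣ m), (1 : ℝ) / m := by
    unfold Hs
    rw [Finset.sum_filter_add_sum_filter_not]
  have h2 : A.filter (fun m => ¬ q ∣ m) = (Icc 1 Y).filter (fun m => ∀ p ∈ insert q P, ¬ p ∣ m) := by
    ext m
    simp only [hA, mem_filter, mem_insert, forall_eq_or_imp]
    tauto
  have h3 : ∑ m ∈ A.filter (fun m => ¬ ¬ q ∣ m), (1 : ℝ) / m ≤ 1 / (q : ℝ) * Hs P Y := by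
    have h4 : ∑ m ∈ A.filter (fun m => ¬ ¬ q ∣ m), (1 : ℝ) / m =
        ∑ m ∈ A.filter (fun m => ¬ ¬ q ∣ m), 1 / (q : ℝ) * (1 / ((m / q : ℕ) : ℝ)) := by
      refine Finset.sum_congr rfl fun m hm => ?_
      rw [mem_filter, not_not] at hm
      obtain ⟨k, rfl⟩ := hm.2
      rw [Nat.mul_div_cancel_left _ hq.pos]
      push_cast
      rw [one_div_mul_one_div]
    rw [h4, ← Finset.mul_sum]
    refine mul_le_mul_of_nonneg_left ?_ (by positivity)
    have hinj : Set.InjOn (fun m : ℕ => m / q) (A.filter (fun m => ¬ ¬ q ∣ m) : Finset ℕ) := by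
      intro a ha b hb hab
      rw [mem_coe, mem_filter, not_not] at ha hb
      obtain ⟨c, rfl⟩ := ha.2
      obtain ⟨d, rfl⟩ := hb.2
      simp only [Nat.mul_div_cancel_left _ hq.pos] at hab
      rw [hab]
    have h5 : ∑ m ∈ A.filter (fun m => ¬ ¬ q ∣ m), (1 / ((m / q : ℕ) : ℝ)) =
        ∑ k ∈ (A.filter (fun m => ¬ ¬ q ∣ m)).image (fun m => m / q), (1 / ((k : ℕ) : ℝ)) := by
      rw [Finset.sum_image hinj]
    rw [h5]
    unfold Hs
    refine Finset.sum_le_sum_of_subset_of_nonneg ?_ (fun _ _ _ => by positivity)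
    intro k hk
    rw [mem_image] at hk
    obtain ⟨m, hm, rfl⟩ := hk
    rw [mem_filter, not_not] at hm
    obtain ⟨hm1, c, rfl⟩ := hm
    rw [Nat.mul_div_cancel_left _ hq.pos]
    rw [hA, mem_filter, mem_Icc] at hm1
    rw [mem_filter, mem_Icc]
    refine ⟨⟨?_, ?_⟩, fun p hp hpc => hm1.2 p hp (hpc.trans (Dvd.intro_left _ rfl))⟩
    · rcases Nat.eq_zero_or_pos c with h | h
      · rw [h] at hm1; omega
      · exact h
    · exact le_trans (Nat.le_mul_of_pos_left c hq.pos) hm1.1.2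
  have h6 : Hs (insert q P) Y = ∑ m ∈ A.filter (fun m => ¬ q ∣ m), (1 : ℝ) / m := by
    rw [h2]; rfl
  rw [h6]
  linarith

lemma prod_le (Y : ℕ) (P : Finset ℕ) (hP : ∀ q ∈ P, q.Prime) :
    (∏ q ∈ P, (1 - 1 / (q : ℝ))) * Hs ∅ Y ≤ Hs P Y := by
  induction P using Finset.induction_on with
  | empty => simp
  | insert q P hq ih =>
    rw [Finset.prod_insert hq]
    have h1 := ih fun q' hq' => hP q' (mem_insert_of_mem hq')
    have hqp : q.Prime := hP q (mem_insert_self _ _)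
    have h2 := step Y P q hqp
    have h3 : (0 : ℝ) ≤ 1 - 1 / (q : ℝ) := by
      have : (1 : ℝ) ≤ q := by exact_mod_cast hqp.one_lt.le
      rw [sub_nonneg, div_le_one (by linarith)]; exact this
    calc (1 - 1 / (q : ℝ)) * (∏ q ∈ P, (1 - 1 / (q : ℝ))) * Hs ∅ Y
        = (1 - 1 / (q : ℝ)) * ((∏ q ∈ P, (1 - 1 / (q : ℝ))) * Hs ∅ Y) := by ring
      _ ≤ (1 - 1 / (q : ℝ)) * Hs P Y := mul_le_mul_of_nonneg_left h1 h3
      _ ≤ _ := h2

lemma log_le (Y : ℕ) : Real.log Y ≤ Hs ∅ Y := by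
  have h1 := log_add_one_le_harmonic Y
  have h2 : ((harmonic Y : ℚ) : ℝ) = Hs ∅ Y := by
    rw [harmonic_eq_sum_Icc]
    unfold Hs
    push_cast
    simp
  rcases Nat.eq_zero_or_pos Y with h | h
  · subst h; simp [Hs]
  · have h3 : Real.log Y ≤ Real.log ((Y : ℝ) + 1) :=
      Real.log_le_log (by exact_mod_cast h) (by linarith)
    rw [← h2]
    push_cast at h1
    linarith

lemma tel (a Y : ℕ) (ha : 2 ≤ a) :
    ∑ q ∈ Icc a Y, (1 : ℝ) / (q * (q - 1)) ≤ 1 / ((a : ℝ) - 1) := by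
  have ha' : (2 : ℝ) ≤ a := by exact_mod_cast ha
  have key : ∀ n : ℕ, ∑ q ∈ Icc a (a + n), (1 : ℝ) / (q * (q - 1)) =
      1 / ((a : ℝ) - 1) - 1 / ((a : ℝ) + n) := by
    intro n
    induction n with
    | zero =>
      have h3 : (a : ℝ) - 1 ≠ 0 := by linarith
      have h1 : (a : ℝ) ≠ 0 := by linarith
      simp only [add_zero, Icc_self, sum_singleton, Nat.cast_zero]
      field_simp
      ring
    | succ n ih =>
      rw [← add_assoc, Finset.sum_Icc_succ_top (by omega), ih]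
      push_cast
      have h1 : (a : ℝ) + n ≠ 0 := by positivity
      have h2 : (a : ℝ) + n + 1 ≠ 0 := by positivity
      have h3 : (a : ℝ) - 1 ≠ 0 := by linarith
      have h4 : (a : ℝ) + n + 1 - 1 = a + n := by ring
      rw [h4]
      rw [← add_assoc]
      field_simp
      ring
  rcases lt_or_ge Y a with h | h
  · rw [Finset.Icc_eq_empty (by omega), Finset.sum_empty]
    have : (0 : ℝ) < (a : ℝ) - 1 := by linarith
    positivity
  · obtain ⟨n, rfl⟩ := Nat.exists_eq_add_of_le h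
    rw [key]
    have : (0 : ℝ) ≤ 1 / ((a : ℝ) + n) := by positivity
    linarith

/-- the primes `q ≤ Y` with `l ∣ q + 1` -/
def PP (l Y : ℕ) : Finset ℕ := (Icc 1 Y).filter (fun q : ℕ => q.Prime ∧ l ∣ q + 1)

lemma HH_eq (l Y : ℕ) : HH l Y = Hs (PP l Y) Y := by
  classical
  unfold HH Hs
  refine Finset.sum_congr ?_ fun _ _ => rfl
  ext m
  simp only [mem_filter, mem_Icc, PP]
  constructor
  · rintro ⟨h1, h2⟩
    exact ⟨h1, fun p hp hpm => h2 p hp.2.1 hp.2.2 hpm⟩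
  · rintro ⟨h1, h2⟩
    refine ⟨h1, fun p hp hl hpm => h2 p ⟨⟨hp.pos, ?_⟩, hp, hl⟩ hpm⟩
    exact (Nat.le_of_dvd (by omega) hpm).trans h1.2

lemma prod_ge (l Y : ℕ) (hl : 3 ≤ l) :
    Real.exp (-(RS l Y) - 1 / ((l : ℝ) - 2)) ≤ ∏ q ∈ PP l Y, (1 - 1 / (q : ℝ)) := by
  have hl' : (3 : ℝ) ≤ l := by exact_mod_cast hl
  have h1 : ∀ q ∈ PP l Y, Real.exp (-(1 / (q : ℝ) + 1 / (q * (q - 1)))) ≤ 1 - 1 / (q : ℝ) := by
    intro q hq
    have hqp : q.Prime := (mem_filter.1 hq).2.1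
    have h2 : (2 : ℝ) ≤ q := by exact_mod_cast hqp.two_le
    have h3 : (1 : ℝ) / (q : ℝ) + 1 / (q * (q - 1)) = 1 / ((q : ℝ) - 1) := by
      have : (q : ℝ) - 1 ≠ 0 := by linarith
      field_simp
      ring
    rw [h3, Real.exp_neg, inv_le_comm₀ (Real.exp_pos _) ?_]
    · have h4 := Real.add_one_le_exp (1 / ((q : ℝ) - 1))
      refine le_trans (le_of_eq ?_) h4
      have : (q : ℝ) - 1 ≠ 0 := by linarith
      field_simp
      ring
    · rw [sub_pos, div_lt_one (by linarith)]; linarith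
  have h2 : Real.exp (∑ q ∈ PP l Y, -(1 / (q : ℝ) + 1 / (q * (q - 1)))) ≤
      ∏ q ∈ PP l Y, (1 - 1 / (q : ℝ)) := by
    rw [Real.exp_sum]
    exact Finset.prod_le_prod (fun _ _ => (Real.exp_pos _).le) h1
  refine le_trans (Real.exp_le_exp.2 ?_) h2
  rw [Finset.sum_neg_distrib, Finset.sum_add_distrib]
  have h3 : ∑ q ∈ PP l Y, (1 : ℝ) / q = RS l Y := rfl
  have h4 : ∑ q ∈ PP l Y, (1 : ℝ) / (q * (q - 1)) ≤ 1 / ((l : ℝ) - 2) := by
    have h5 := tel (l - 1) Y (by omega)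
    have h6 : ((l - 1 : ℕ) : ℝ) = (l : ℝ) - 1 := by
      rw [Nat.cast_sub (by omega)]; simp
    rw [h6] at h5
    have h7 : (l : ℝ) - 1 - 1 = l - 2 := by ring
    rw [h7] at h5
    refine le_trans (Finset.sum_le_sum_of_subset_of_nonneg ?_ ?_) h5
    · intro q hq
      rw [PP, mem_filter, mem_Icc] at hq
      rw [mem_Icc]
      have := Nat.le_of_dvd (by omega) hq.2.2
      exact ⟨by omega, hq.1.2⟩
    · intro q hq _
      rw [mem_Icc] at hq
      have : (2 : ℝ) ≤ q := by exact_mod_cast (by omega : 2 ≤ q)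
      have h8 : (0 : ℝ) ≤ (q : ℝ) - 1 := by linarith
      positivity
  rw [h3]
  linarith

theorem taskHLow : TaskHLow := by
  intro hM ε hε
  obtain ⟨l0, Y0, h0⟩ := hM (ε / 2) (by linarith)
  refine ⟨max l0 (⌈2 / ε⌉₊ + 3), max Y0 1, fun Y hY l hl hl0 hlY => ?_⟩
  have hY0 : Y0 ≤ Y := (le_max_left _ _).trans hY
  have hY1 : 1 ≤ Y := (le_max_right _ _).trans hY
  have hl1 : l0 ≤ l := (le_max_left _ _).trans hl0
  have hl2 : ⌈2 / ε⌉₊ + 3 ≤ l := (le_max_right _ _).trans hl0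
  have hLL : 0 ≤ LL Y := by
    have : (0 : ℝ) ≤ (l : ℝ) ^ 2 := by positivity
    linarith
  have h1 := h0 Y hY0 l hl hl1 (by linarith)
  rw [abs_le] at h1
  have h2 : 2 / ε + 3 ≤ l := by
    have : (2 / ε : ℝ) ≤ ⌈2 / ε⌉₊ := Nat.le_ceil _
    have h3 : ((⌈2 / ε⌉₊ + 3 : ℕ) : ℝ) ≤ l := by exact_mod_cast hl2
    push_cast at h3
    linarith
  have h3 : 1 / ((l : ℝ) - 2) ≤ ε / 2 := by
    have h4 : 2 / ε ≤ (l : ℝ) - 2 := by linarith
    have h5 : (0 : ℝ) < 2 / ε := by positivity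
    calc 1 / ((l : ℝ) - 2) ≤ 1 / (2 / ε) := one_div_le_one_div_of_le h5 h4
      _ = ε / 2 := by rw [one_div_div]
  have hlog : 0 ≤ Real.log Y := Real.log_nonneg (by exact_mod_cast hY1)
  have h5 := prod_ge l Y (by omega)
  have h6 := prod_le Y (PP l Y) (fun q hq => (mem_filter.1 hq).2.1)
  have h7 := log_le Y
  rw [HH_eq]
  refine le_trans ?_ h6
  have h8 : Real.exp (-ε) * EE l Y ≤ ∏ q ∈ PP l Y, (1 - 1 / (q : ℝ)) := by
    refine le_trans ?_ h5
    unfold EE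
    rw [← Real.exp_add]
    refine Real.exp_le_exp.2 ?_
    have h9 : -LL Y / ((l : ℝ) - 1) = -(LL Y / ((l : ℝ) - 1)) := neg_div _ _
    rw [h9]
    linarith [h1.2]
  have h9 : 1 - ε ≤ Real.exp (-ε) := by
    have := Real.add_one_le_exp (-ε)
    linarith
  have hEE : 0 < EE l Y := Real.exp_pos _
  have hprod : 0 ≤ ∏ q ∈ PP l Y, (1 - 1 / (q : ℝ)) :=
    le_trans (by positivity) h8
  calc (1 - ε) * (Real.log Y * EE l Y) ≤ Real.exp (-ε) * (Real.log Y * EE l Y) :=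
        mul_le_mul_of_nonneg_right h9 (by positivity)
    _ = Real.exp (-ε) * EE l Y * Real.log Y := by ring
    _ ≤ (∏ q ∈ PP l Y, (1 - 1 / (q : ℝ))) * Real.log Y := mul_le_mul_of_nonneg_right h8 hlog
    _ ≤ (∏ q ∈ PP l Y, (1 - 1 / (q : ℝ))) * Hs ∅ Y := mul_le_mul_of_nonneg_left h7 hprod

end Pool.Agent.H331R3.NA
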